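import Mathlib
import Pool.Agent.Run7.h653.Bridge2

set_option autoImplicit false

/-!
# MP_960bf8_lc: the proxy principle at all successor cardinals

For every uncountable cardinal `λ` and `κ = λ⁺`, `□(κ) + ♢(κ)` implies
`P⁻(κ, 2, ⊑, 1, {κ}, 2)`, and therefore `P⁻(κ, κ, ⊑, 1, {κ}, κ)`. So the answer to Q1 is positive
for every successor cardinal; the case that `κ` is a limit cardinal is not treated.

Outline of the proof. Let `C` be a `□(κ)`-sequence.

* For every `i < λ`, insert into each gap of `C α` one element, found from the `i`-th
  element of the gap by means of a diamond sequence. If one of the `λ` many coherent sequences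
  obtained hits all unbounded subsets of `κ`, then it can be improved to hit with blocks of length
  `n` (`Pool.Agent.Run7.h653.Proxy`).
* Otherwise guess all the counterexamples `A i` simultaneously on an unbounded set `G`. Then, for
  every `i`, only finitely many gaps of `C α` have their `i`-th element in `G`. For `ζ < λ`
  let `B α` be the set of all gaps of `C α` whose `i`-th element is in `G` for some `i ≤ ζ`. Then
  `B α` has size `< λ`, and for a suitable `ζ` it is cofinal in `α` for stationarily many `α`
  whose cofinality is different from that of `λ`. Now Shelah's proof of diamond from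
  `2 ^ λ = λ⁺` can be carried out at the points `δ` of cofinality `ω` in which `B δ` is cofinal,
  whatever the cofinality of `λ` is, using only names for ordinals below `δ` relative to
  elements of `B δ` (`Pool.Agent.Run7.h653.Shelah2` and `Pool.Agent.Run7.h653.Dicho2`).
* The order type of `B δ` is less than `λ`. So there is a fixed order type such that diamond
  holds on the set `S` of those `δ` at which this order type is attained. No point of `S` is an
  accumulation point of `C δ` for another `δ` in `S`. So it is easy to modify `C` such that
  no `C α` accumulates at a point of `S`, and then to replace `C δ` for `δ` in `S` by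
  a subset of type `ω` of the guessed set.
-/

namespace Pool.Agent.Results.MP_960bf8_lc.SuccessorCardinals

open Cardinal Pool.Agent.Run7.h653

/-- For every uncountable cardinal `λ`, with `κ = λ⁺`, the principles `□(κ)` and `♢(κ)` imply
`P⁻(κ, μ, ⊑, 1, {κ}, μ)` for all `μ ≥ 2`; the strongest case is `μ = 2`, and `μ = κ` is the
principle of the question. -/
theorem result (lam : Cardinal.{0}) (hlam : ℵ₀ < lam) (hsq : SquareSeq (Order.succ lam))
    (hd : DiamondSeq (Order.succ lam)) (μ : Cardinal.{0}) (hμ : 2 ≤ μ) :
    ProxyPrinciple (Order.succ lam) μ :=
  proxy_main lam hlam hsq hd μ hμ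

/-- The principle of the question. -/
theorem question (lam : Cardinal.{0}) (hlam : ℵ₀ < lam) (hsq : SquareSeq (Order.succ lam))
    (hd : DiamondSeq (Order.succ lam)) : ProxyPrinciple (Order.succ lam) (Order.succ lam) := by
  refine result lam hlam hsq hd _ ?_
  have h2 : (2 : Cardinal.{0}) ≤ ℵ₀ := (Cardinal.nat_lt_aleph0 2).le
  exact h2.trans (hlam.le.trans (Order.le_succ lam))

end Pool.Agent.Results.MP_960bf8_lc.SuccessorCardinals
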